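import Pool.Agent.H25.DP.Targets3

/-! Module DFL of the board `dp_modules`. -/

set_option autoImplicit false

open Complex MeasureTheory Set

namespace Pool.Agent.H48.DP

open Pool.Agent.H25.DL Pool.Agent.H25.DP

theorem bp_prF (P Q : LF) (a τ : ℝ) (ha : 0 < a) (h1 : a ≠ 1) (p : ℕ) (hp : p.Prime) :
    bp (prF P Q a τ ha).f p = -∑ i, Q.h i p := by
  unfold bp
  rw [Fintype.sum_sum_type]
  have hl : ∀ x : Σ i : (prF P Q a τ ha).I, Fin ((prF P Q a τ ha).p i).L.n,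
      (if ((prF P Q a τ ha).f (Sum.inl x)).r = 1 then
        ((prF P Q a τ ha).f (Sum.inl x)).c p *
          (p : ℂ) ^ (-(((prF P Q a τ ha).f (Sum.inl x)).τ * I) : ℂ) else 0) = 0 := by
    intro x
    rw [if_neg]
    exact h1
  rw [Finset.sum_congr rfl (fun x _ => hl x), Finset.sum_const_zero, zero_add]
  rw [Fintype.sum_sigma]
  have hr : ∀ (j : Unit) (k : Fin Q.n),
      (if ((prF P Q a τ ha).f (Sum.inr ⟨j, k⟩)).r = 1 then
        ((prF P Q a τ ha).f (Sum.inr ⟨j, k⟩)).c p *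
          (p : ℂ) ^ (-(((prF P Q a τ ha).f (Sum.inr ⟨j, k⟩)).τ * I) : ℂ) else 0) = -Q.h k p := by
    intro j k
    have hr1 : ((prF P Q a τ ha).f (Sum.inr ⟨j, k⟩)).r = 1 := rfl
    rw [if_pos hr1]
    show ((ArithmeticFunction.moebius p : ℤ) : ℂ) * Q.h k p * (p : ℂ) ^ (-(((0 : ℝ) : ℂ) * I)) = _
    rw [ArithmeticFunction.moebius_apply_prime hp]
    simp
  have h2 : ∑ x : Unit, ∑ k : Fin Q.n, -Q.h k p = -∑ i, Q.h i p := by simp
  rw [← h2]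
  exact Finset.sum_congr rfl fun j _ => Finset.sum_congr rfl fun k _ => hr j k

theorem dfl : T_DFL := by
  intro P Q a τ ha h1 hQ x₁ x₂ ε hx₁ hx₂ hε
  obtain ⟨T₀, hT₀⟩ := hQ x₁ x₂ ε hx₁ hx₂ hε
  refine ⟨T₀, fun T hT => ?_⟩
  obtain ⟨X, hX1, hX2, hX3⟩ := hT₀ T hT
  refine ⟨X, hX1, hX2, hX3.trans (le_of_eq ?_)⟩
  refine Finset.sum_congr rfl fun p hp => ?_
  rw [bp_prF P Q a τ ha h1 p (Finset.mem_filter.1 hp).2, norm_neg]

end Pool.Agent.H48.DP
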