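import Pool.Agent.H31.DP.Targets

/-!
[ID] The sum of the defect over the domain is a sum of squares.
-/

set_option autoImplicit false

open Finset

namespace Pool.Agent.H48.DP

open Pool.Agent.H31.DP

theorem mem_Om {M : ℕ} {ω : Fin 3 → ℤ} : ω ∈ Om M ↔
    (∀ i, -(M : ℤ) ≤ ω i ∧ ω i ≤ M) ∧ (1 ≤ ω 0 ∧ ω 0 ≤ M) ∧ (1 ≤ ω 1 ∧ ω 1 ≤ M) ∧
      (1 ≤ ω 0 + ω 2 ∧ ω 0 + ω 2 ≤ M) ∧ (1 ≤ ω 1 + ω 2 ∧ ω 1 + ω 2 ≤ M) := by
  unfold Om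
  simp only [Finset.mem_filter, Fintype.mem_piFinset, Finset.mem_Icc]

theorem mem_IM {M : ℕ} {s y : ℤ} : y ∈ IM M s ↔ (1 ≤ y ∧ y ≤ M) ∧ 1 ≤ y + s ∧ y + s ≤ M := by
  unfold IM
  simp only [Finset.mem_filter, Finset.mem_Icc]

theorem sum_Om (M : ℕ) (f : (Fin 3 → ℤ) → ℝ) : ∑ ω ∈ Om M, f ω =
    ∑ s ∈ Finset.Icc (-(M : ℤ)) M, ∑ y ∈ IM M s, ∑ y' ∈ IM M s, f ![y, y', s] := by
  have h1 : ∀ s : ℤ, ∑ y ∈ IM M s, ∑ y' ∈ IM M s, f ![y, y', s] =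
      ∑ q ∈ IM M s ×ˢ IM M s, f ![q.1, q.2, s] := fun s =>
    (Finset.sum_product (IM M s) (IM M s) (fun q : ℤ × ℤ => f ![q.1, q.2, s])).symm
  simp only [h1]
  rw [Finset.sum_sigma']
  refine Finset.sum_nbij' (fun ω => ⟨ω 2, (ω 0, ω 1)⟩) (fun q => ![q.2.1, q.2.2, q.1]) ?_ ?_ ?_
    ?_ ?_
  · intro ω hω
    obtain ⟨h2, h3, h4, h5, h6⟩ := mem_Om.1 hω
    refine Finset.mem_sigma.2 ⟨Finset.mem_Icc.2 (h2 2), Finset.mem_product.2 ⟨?_, ?_⟩⟩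
    · exact mem_IM.2 ⟨h3, h5⟩
    · exact mem_IM.2 ⟨h4, h6⟩
  · rintro ⟨s, y, y'⟩ hq
    obtain ⟨h2, h3⟩ := Finset.mem_sigma.1 hq
    obtain ⟨h4, h5⟩ := Finset.mem_product.1 h3
    have h6 : (1 ≤ y ∧ y ≤ M) ∧ 1 ≤ y + s ∧ y + s ≤ M := mem_IM.1 h4
    have h7 : (1 ≤ y' ∧ y' ≤ M) ∧ 1 ≤ y' + s ∧ y' + s ≤ M := mem_IM.1 h5
    have h8 := Finset.mem_Icc.1 h2
    refine mem_Om.2 ⟨?_, ?_, ?_, ?_, ?_⟩
    · intro i
      fin_cases i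
      · change -(M : ℤ) ≤ y ∧ y ≤ M
        exact ⟨by omega, h6.1.2⟩
      · change -(M : ℤ) ≤ y' ∧ y' ≤ M
        exact ⟨by omega, h7.1.2⟩
      · exact h8
    · exact h6.1
    · exact h7.1
    · exact h6.2
    · exact h7.2
  · intro ω _
    funext i
    fin_cases i <;> rfl
  · rintro ⟨s, y, y'⟩ _
    rfl
  · intro ω _
    congr 1
    funext i
    fin_cases i <;> rfl

theorem pf_ID : StatementID := by
  intro l h p M _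
  rw [sum_Om]
  unfold DD mul
  rw [Finset.mul_sum, Finset.sum_filter]
  refine Finset.sum_congr rfl fun s _ => ?_
  have h1 : ∀ y y' : ℤ, dd h p ![y, y', s] = (p : ℝ) * ind ((p : ℤ) ∣ s) *
      ((bal p y * (FF h p y * FF h p (y + s))) * (bal p y' * (FF h p y' * FF h p (y' + s)))) := by
    intro y y'
    have h2 : dd h p ![y, y', s] = (p : ℝ) * ind ((p : ℤ) ∣ s) * (bal p y * bal p y' *
        (FF h p y * FF h p (y + s) * (FF h p y' * FF h p (y' + s)))) := rfl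
    rw [h2]
    ring
  simp only [h1]
  simp only [← Finset.mul_sum, ← Finset.sum_mul]
  unfold TT ind
  split_ifs with hs
  · ring
  · ring

end Pool.Agent.H48.DP
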